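import Pool.Agent.H956R3.TP6

/-!
# The tree property is poset definable

There is a (countable) poset `Σ` such that a first-order theory `T` has TP if and only if it has
`Σ`-SOP: a full positive answer to the question of Garcia and Mennuni (2022).  The definitions of
TP and of `Σ`-SOP are in `Pool/Agent/H956R3/TPDefs.lean`; the poset is `Pos`, in
`Pool/Agent/H956R3/TP4.lean`.

Idea.  The elements of `Σ` are `C_η`, `P_η`, `N_η`, `D_η` for the nonempty nodes `η` of `ω^{<ω}`.
Think of `P_η` as the set `φ(x, a_η)`, of `N_η` as its complement, of `C_η` as a point and of `D_η`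
as the complement of this point.  The order says: `C_η ≤ P_ζ` iff `ζ ⊆ η`, `C_η ≤ N_ζ` iff
`ζ ⊄ η`, `C_η ≤ D_ζ` iff `η ≠ ζ`, `P_η ≤ N_ζ` iff `η, ζ` are siblings, `P_η ≤ D_ζ` iff `η ⊄ ζ`,
`N_η ≤ D_ζ` iff `η ⊆ ζ`, and nothing else.  From `Σ`-SOP, the formula `φ(x, P_η) ∧ ¬ φ(x, N_η)` has
TP with `k = 2`.  Conversely TP gives TP with `k = 2` (a combinatorial argument with an idempotent
ultrafilter), then, by counting, finite trees with points lying exactly in the sets of their
branch; adding a second component to the formula one gets exactly the order of `Σ`.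
-/

set_option autoImplicit false

namespace Pool.Agent.Results.MP_4a08ba_lc.TPPosetDefinable

open Pool.Agent.H956R3.TP

universe u v w

theorem countable_pos : Countable Pos := by
  let f : Pos → ℕ × ℕ × List ℕ := fun s =>
    (match s.kind with
      | .C => 0
      | .P => 1
      | .N => 2
      | .D => 3, s.hd, s.tl)
  refine Function.Injective.countable (f := f) ?_
  rintro ⟨κ, a, ξ⟩ ⟨κ', a', ξ'⟩ h
  cases κ <;> cases κ' <;> simp_all [f]

/-- **TP is poset definable**: there is a countable poset `S` such that every first-order theory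
`T` has the tree property if and only if it has `S`-SOP. -/
theorem result : ∃ (S : Type) (_ : PartialOrder S), Countable S ∧
    ∀ (L : FirstOrder.Language.{u, v}) (T : L.Theory),
      HasTP.{u, v, w} T ↔ HasSOP.{u, v, w} S T :=
  ⟨Pos, inferInstance, countable_pos, fun _ T => ⟨sop_of_tp T, tp_of_sop T⟩⟩

end Pool.Agent.Results.MP_4a08ba_lc.TPPosetDefinable
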